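import Pool.Agent.Helper36_X1.Stmts2
import Pool.Agent.Helper5_X1.Rk1

/-!
# Squad X1: the square of the operator of a simple root (ACB)
-/

open scoped BigOperators

set_option linter.unusedSectionVars false
set_option linter.unusedVariables false

noncomputable section

namespace Pool.Agent.PP.X1.H68

open Pool.Agent.Helper51_AWC Pool.Agent.Helper79_WRA Pool.Agent.PP Pool.Agent.PP.X1

variable {ℓ : ℕ} {F G : Type} [Field F] [Group G] [Finite G] (R : RGD ℓ G)

section mem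

variable (J : Finset (Fin R.r))

theorem T_PJ : R.T ≤ R.PJ J := le_sup_left

theorem U_PJ : R.U ≤ R.PJ J := (R.gp_mono Set.subset_union_left).trans le_sup_right

theorem X_PJ (i : Fin R.r) : R.X (R.a i) ≤ R.PJ J := (R.X_le_U (R.a_pos i)).trans (U_PJ R J)

theorem Xn_PJ {i : Fin R.r} (hi : i ∈ J) : R.X (-R.a i) ≤ R.PJ J := by
  have h1 : -R.a i ∈ R.pos ∪ R.lev J := by
    right
    refine ⟨R.neg_a_mem i, ?_⟩
    exact Submodule.neg_mem _ (Submodule.subset_span ⟨i, hi, rfl⟩)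
  exact (R.X_le_gp h1).trans le_sup_right

theorem n_PJ {i : Fin R.r} (hi : i ∈ J) : R.n i ∈ R.PJ J :=
  (sup_le (X_PJ R J i) (Xn_PJ R J hi)) (R.nmem i)

theorem nn_Ti (i : Fin R.r) : R.n i * R.n i ∈ R.Ti i :=
  ⟨R.nn i, Subgroup.mul_mem _ (R.nmem i) (R.nmem i)⟩

end mem

theorem th_spec {i : Fin R.r} {x : G} (hx : x ∈ R.X (R.a i)) (hx1 : x ≠ 1) :
    R.th i x ∈ R.Ti i ∧ ∃ y ∈ R.X (R.a i), ∃ z ∈ R.X (R.a i),
      y ≠ 1 ∧ R.n i * x * (R.n i)⁻¹ = y * (R.n i * R.th i x) * z := by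
  have h : ∃ t ∈ R.T, ∃ y ∈ R.X (R.a i), ∃ z ∈ R.X (R.a i),
      R.n i * x * (R.n i)⁻¹ = y * (R.n i * t) * z := by
    obtain ⟨y, hy, z, hz, t, ht, h⟩ := R.cell i x hx hx1
    exact ⟨t, ht, y, hy, z, hz, h⟩
  have h1 : R.th i x = h.choose := by
    unfold RGD.th
    rw [dif_pos h]
  obtain ⟨hT, y, hy, z, hz, he⟩ := h.choose_spec
  rw [← h1] at hT he
  refine ⟨⟨hT, ?_⟩, y, hy, z, hz, ?_, he⟩
  · have h2 : R.th i x = (R.n i)⁻¹ * y⁻¹ * (R.n i * x * (R.n i)⁻¹) * z⁻¹ := by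
      rw [he]
      group
    rw [h2]
    have hX : R.X (R.a i) ≤ R.X (R.a i) ⊔ R.X (-R.a i) := le_sup_left
    exact Subgroup.mul_mem _ (Subgroup.mul_mem _ (Subgroup.mul_mem _ (Subgroup.inv_mem _ (R.nmem i))
      (Subgroup.inv_mem _ (hX hy))) (Subgroup.mul_mem _ (Subgroup.mul_mem _ (R.nmem i) (hX hx))
      (Subgroup.inv_mem _ (R.nmem i)))) (Subgroup.inv_mem _ (hX hz))
  · rintro rfl
    have h3 : R.n i = z⁻¹ * (R.th i x)⁻¹ * x := by
      have h4 : x * (R.n i)⁻¹ = R.th i x * z := by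
        have h5 : R.n i * (x * (R.n i)⁻¹) = R.n i * (R.th i x * z) := by
          calc R.n i * (x * (R.n i)⁻¹) = R.n i * x * (R.n i)⁻¹ := by group
            _ = 1 * (R.n i * R.th i x) * z := he
            _ = R.n i * (R.th i x * z) := by group
        exact mul_left_cancel h5
      have h6 : R.n i * x⁻¹ = (R.th i x * z)⁻¹ := by
        rw [← h4]
        group
      calc R.n i = R.n i * x⁻¹ * x := by group
        _ = (R.th i x * z)⁻¹ * x := by rw [h6]
        _ = z⁻¹ * (R.th i x)⁻¹ * x := by group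
    refine H5.n_not R i ?_
    intro w hw
    have h4 : R.n i * w * (R.n i)⁻¹ =
        z⁻¹ * ((R.th i x)⁻¹ * (x * w * x⁻¹) * ((R.th i x)⁻¹)⁻¹) * z := by
      rw [h3]
      group
    rw [h4]
    refine Subgroup.mul_mem _ (Subgroup.mul_mem _ (Subgroup.inv_mem _ hz) ?_) hz
    exact R.tX _ (R.T.inv_mem hT) _ (R.mem i) _
      (Subgroup.mul_mem _ (Subgroup.mul_mem _ hx hw) (Subgroup.inv_mem _ hx))

variable {J : Finset (Fin R.r)} {k : ℕ} (ρ : R.PJ J →* Matrix (Fin k) (Fin k) F)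

theorem sum_mv {ι : Type} (s : Finset ι) (A : ι → Matrix (Fin k) (Fin k) F) (v : Fin k → F) :
    (∑ x ∈ s, A x).mulVec v = ∑ x ∈ s, (A x).mulVec v :=
  map_sum (Matrix.mulVec.addMonoidHomLeft v) A s

theorem mv_sum {ι : Type} (s : Finset ι) (A : Matrix (Fin k) (Fin k) F) (v : ι → Fin k → F) :
    A.mulVec (∑ x ∈ s, v x) = ∑ x ∈ s, A.mulVec (v x) :=
  map_sum A.mulVecLin v s

theorem Ai_mv (i : Fin R.r) [Fintype (R.X (R.a i))] (v : Fin k → F) :
    (Ai R ρ i).mulVec v = ∑ x : R.X (R.a i), (ro ρ ((x : G) * R.n i)).mulVec v := by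
  unfold Ai
  rw [finsum_eq_sum_of_fintype, sum_mv]

open Classical in
theorem tau_mv (i : Fin R.r) [Fintype (R.X (R.a i))] (v : Fin k → F) :
    (tauM R ρ i).mulVec v = ∑ x : R.X (R.a i), if (x : G) = 1 then 0 else
      (ro ρ (R.th i x * (R.n i * R.n i))).mulVec v := by
  unfold tauM
  rw [finsum_eq_sum_of_fintype, sum_mv]
  refine Finset.sum_congr rfl fun x _ => ?_
  by_cases hx : (x : G) = 1
  · rw [if_pos hx, if_pos hx, Matrix.zero_mulVec]
  · rw [if_neg hx, if_neg hx]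

theorem ro_mv {g h : G} (hg : g ∈ R.PJ J) (hh : h ∈ R.PJ J) (v : Fin k → F) :
    (ro ρ g).mulVec ((ro ρ h).mulVec v) = (ro ρ (g * h)).mulVec v := by
  rw [ro_mul ρ hg hh, Matrix.mulVec_mulVec]

theorem T_fx {t : G} (ht : t ∈ R.T) {v : Fin k → F} (hv : v ∈ fx R.U ρ) :
    (ro ρ t).mulVec v ∈ fx R.U ρ := by
  rw [mem_fx] at hv ⊢
  intro u hu
  have h1 : t⁻¹ * u * t ∈ R.U := by
    have := R.T_gp R.pos_sub (R.T.inv_mem ht) hu
    rwa [inv_inv] at this
  have h2 := hv _ h1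
  rw [ro_mv R ρ (U_PJ R J hu) (T_PJ R J ht)]
  have h3 : u * t = t * (t⁻¹ * u * t) := by group
  rw [h3, ← ro_mv R ρ (T_PJ R J ht) (U_PJ R J h1), h2]

theorem card_X_zero [Fact ℓ.Prime] (hF : GoodF ℓ F) (i : Fin R.r) [Fintype (R.X (R.a i))] :
    (Fintype.card (R.X (R.a i)) : F) = 0 := by
  have := hF.char
  rw [CharP.cast_eq_zero_iff F ℓ, ← Nat.card_eq_fintype_card]
  have h1 : IsPGroup ℓ (R.X (R.a i)) := R.pgrp _ (R.mem i)
  have h2 : Nontrivial (R.X (R.a i)) := (Subgroup.nontrivial_iff_ne_bot _).mpr (R.nt i)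
  obtain ⟨n, hn⟩ := h1.exists_card_eq
  rw [hn]
  rcases Nat.eq_zero_or_pos n with h3 | h3
  · exfalso
    rw [h3, pow_zero] at hn
    have h4 := Finite.one_lt_card (α := R.X (R.a i))
    omega
  · exact dvd_pow_self ℓ h3.ne'

theorem acb : AcbStmt := by
  classical
  intro ℓ _ F _ hF G _ _ R J k ρ i hi
  have : Fintype (R.X (R.a i)) := Fintype.ofFinite _
  have hn := n_PJ R J hi
  have hX := X_PJ R J i
  have hT := T_PJ R J
  refine ⟨?_, fun x hx hx1 => th_spec R hx hx1, ?_⟩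
  · intro v hv
    rw [Ai_mv R ρ i v, tau_mv R ρ i v, mv_sum, mv_sum]
    refine Finset.sum_congr rfl fun y _ => ?_
    have hn2 := T_fx R ρ (R.nn i) hv
    have hnn : R.n i * R.n i ∈ R.PJ J := hT (R.nn i)
    by_cases hy : (y : G) = 1
    · rw [if_pos hy, Matrix.mulVec_zero, hy, one_mul, Ai_mv]
      have h1 : ∀ x : R.X (R.a i), (ro ρ ((x : G) * R.n i)).mulVec ((ro ρ (R.n i)).mulVec v) =
          (ro ρ (R.n i * R.n i)).mulVec v := by
        intro x
        rw [ro_mv R ρ ((R.PJ J).mul_mem (hX x.2) hn) hn, mul_assoc,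
          ← ro_mv R ρ (hX x.2) hnn]
        exact (mem_fx.mp hn2) _ (R.X_le_U (R.a_pos i) x.2)
      rw [Finset.sum_congr rfl fun x _ => h1 x, Finset.sum_const, Finset.card_univ,
        ← Nat.cast_smul_eq_nsmul F, card_X_zero R hF i, zero_smul]
    · rw [if_neg hy]
      obtain ⟨hth, y', hy', z, hz, -, he⟩ := th_spec R y.2 hy
      have hθ : R.th i y ∈ R.PJ J := hT hth.1
      have h1 : ∀ x : R.X (R.a i),
          (ro ρ ((x : G) * R.n i)).mulVec ((ro ρ ((y : G) * R.n i)).mulVec v) =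
          (ro ρ (((x * ⟨y', hy'⟩ : R.X (R.a i)) : G) * R.n i)).mulVec
            ((ro ρ (R.th i y * (R.n i * R.n i))).mulVec v) := by
        intro x
        have h2 : (x : G) * R.n i * ((y : G) * R.n i) =
            (x * y' * R.n i * R.th i y) * (z * (R.n i * R.n i)) := by
          calc (x : G) * R.n i * ((y : G) * R.n i)
              = x * (R.n i * y * (R.n i)⁻¹) * (R.n i * R.n i) := by group
            _ = x * (y' * (R.n i * R.th i y) * z) * (R.n i * R.n i) := by rw [he]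
            _ = (x * y' * R.n i * R.th i y) * (z * (R.n i * R.n i)) := by group
        have h3 : (x : G) * y' * R.n i * R.th i y ∈ R.PJ J :=
          (R.PJ J).mul_mem ((R.PJ J).mul_mem ((R.PJ J).mul_mem (hX x.2) (hX hy')) hn) hθ
        rw [ro_mv R ρ ((R.PJ J).mul_mem (hX x.2) hn) ((R.PJ J).mul_mem (hX y.2) hn), h2,
          ← ro_mv R ρ h3 ((R.PJ J).mul_mem (hX hz) hnn), ← ro_mv R ρ (hX hz) hnn,
          (mem_fx.mp hn2) _ (R.X_le_U (R.a_pos i) hz), ro_mv R ρ h3 hnn,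
          ro_mv R ρ ((R.PJ J).mul_mem (hX (x * ⟨y', hy'⟩ : R.X (R.a i)).2) hn)
            ((R.PJ J).mul_mem hθ hnn)]
        congr 2
        simp only [Subgroup.coe_mul]
        group
      rw [Ai_mv, Finset.sum_congr rfl fun x _ => h1 x, Ai_mv]
      exact Equiv.sum_comp (Equiv.mulRight (⟨y', hy'⟩ : R.X (R.a i)))
        (fun x : R.X (R.a i) => (ro ρ ((x : G) * R.n i)).mulVec
          ((ro ρ (R.th i y * (R.n i * R.n i))).mulVec v))
  · intro L hL
    constructor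
    · intro v hv
      rw [tau_mv]
      refine Submodule.sum_mem _ fun x _ => ?_
      by_cases hx : (x : G) = 1
      · rw [if_pos hx]
        exact L.zero_mem
      · rw [if_neg hx]
        exact hL _ (R.T.mul_mem (th_spec R x.2 hx).1.1 (R.nn i)) v hv
    · intro htr v hv
      rw [tau_mv]
      have h1 : ∀ x : R.X (R.a i), (if (x : G) = 1 then (0 : Fin k → F) else
          (ro ρ (R.th i x * (R.n i * R.n i))).mulVec v) = v - if x = 1 then v else 0 := by
        intro x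
        by_cases hx : (x : G) = 1
        · rw [if_pos hx, if_pos (by exact_mod_cast hx), sub_self]
        · rw [if_neg hx, if_neg (by exact_mod_cast hx), sub_zero]
          exact htr _ ((R.Ti i).mul_mem (th_spec R x.2 hx).1 (nn_Ti R i)) v hv
      rw [Finset.sum_congr rfl fun x _ => h1 x, Finset.sum_sub_distrib, Finset.sum_const,
        Finset.card_univ, ← Nat.cast_smul_eq_nsmul F, card_X_zero R hF i, zero_smul,
        Finset.sum_ite_eq' Finset.univ (1 : R.X (R.a i)), if_pos (Finset.mem_univ _), zero_sub]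

end Pool.Agent.PP.X1.H68
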