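import Pool.Agent.Helper36_X1.Stmts3

/-!
# Squad X1: the diagram is connected (CON)
-/

open scoped BigOperators

set_option linter.unusedSectionVars false
set_option linter.unusedVariables false

noncomputable section

namespace Pool.Agent.PP.X1.H68

open Pool.Agent.PP.X1

section

variable {ℓ : ℕ} {G : Type} [Group G] (R : RGD ℓ G)

theorem orth_of_fix {i k : Fin R.r} (h : R.s i (R.a k) = R.a k) :
    inner ℝ (R.a i) (R.a k) = (0 : ℝ) := by
  have h1 := R.s_eq i (R.a k)
  rw [h] at h1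
  have h2 : (2 * inner ℝ (R.a i) (R.a k) / inner ℝ (R.a i) (R.a i)) • R.a i = 0 :=
    sub_eq_self.mp h1.symm
  rcases smul_eq_zero.mp h2 with h3 | h3
  · have h4 := inner_self_ne (R.a_ne i)
    rcases div_eq_zero_iff.mp h3 with h5 | h5
    · linarith
    · exact absurd h5 h4
  · exact absurd h3 (R.a_ne i)

/-- the span of the simple roots in `J` -/
abbrev sp (J : Finset (Fin R.r)) : Submodule ℝ R.E :=
  Submodule.span ℝ (R.a '' (J : Set (Fin R.r)))

theorem s_sp {J J' : Finset (Fin R.r)} (hJ : ∀ i, i ∈ J ∨ i ∈ J')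
    (ho : ∀ i ∈ J', ∀ k ∈ J, inner ℝ (R.a i) (R.a k) = (0 : ℝ)) (i : Fin R.r) {v : R.E}
    (hv : v ∈ sp R J) : R.s i v ∈ sp R J := by
  rcases hJ i with hi | hi
  · rw [R.s_eq]
    exact (sp R J).sub_mem hv ((sp R J).smul_mem _ (Submodule.subset_span ⟨i, hi, rfl⟩))
  · have h1 : inner ℝ (R.a i) v = (0 : ℝ) := by
      refine Submodule.span_induction (p := fun v _ => inner ℝ (R.a i) v = (0 : ℝ)) ?_ ?_ ?_ ?_ hv
      · rintro _ ⟨k, hk, rfl⟩
        exact ho i hi k hk
      · exact inner_zero_right _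
      · intro x y _ _ hx hy
        rw [inner_add_right, hx, hy, add_zero]
      · intro c x _ hx
        rw [real_inner_smul_right, hx, mul_zero]
    have h2 : R.s i v = v := rf_of_orth _ _ h1
    rw [h2]
    exact hv

theorem sw_sp {J J' : Finset (Fin R.r)} (hJ : ∀ i, i ∈ J ∨ i ∈ J')
    (ho : ∀ i ∈ J', ∀ k ∈ J, inner ℝ (R.a i) (R.a k) = (0 : ℝ)) (w : List (Fin R.r)) {v : R.E}
    (hv : v ∈ sp R J) : R.sw w v ∈ sp R J := by
  induction w with
  | nil => exact hv
  | cons i w ih =>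
    rw [R.sw_cons]
    exact s_sp R hJ ho i ih

theorem sp_disj {J J' : Finset (Fin R.r)} (hd : Disjoint J J') {v : R.E} (h1 : v ∈ sp R J)
    (h2 : v ∈ sp R J') : v = 0 := by
  have h3 : Disjoint (J : Set (Fin R.r)) (J' : Set (Fin R.r)) := by
    exact_mod_cast hd
  have h4 := R.base.disjoint_span_image h3
  rw [Submodule.disjoint_def] at h4
  exact h4 v h1 h2

theorem lev_or (horb : OrbStmt) {J J' : Finset (Fin R.r)} (hJ : ∀ i, i ∈ J ∨ i ∈ J')
    (ho : ∀ i ∈ J', ∀ k ∈ J, inner ℝ (R.a i) (R.a k) = (0 : ℝ)) {b : R.E} (hb : b ∈ R.Φ) :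
    b ∈ R.lev J ∨ b ∈ R.lev J' := by
  obtain ⟨w, i, c, hc, hb1, hb2⟩ := horb ℓ G R b hb
  have ho' : ∀ i ∈ J, ∀ k ∈ J', inner ℝ (R.a i) (R.a k) = (0 : ℝ) := by
    intro i hi k hk
    rw [real_inner_comm]
    exact ho k hk i hi
  rcases hJ i with hi | hi
  · left
    refine ⟨hb, ?_⟩
    rw [hb1]
    exact (sp R J).smul_mem _ (sw_sp R hJ ho w (Submodule.subset_span ⟨i, hi, rfl⟩))
  · right
    refine ⟨hb, ?_⟩
    rw [hb1]
    exact (sp R J').smul_mem _
      (sw_sp R (fun i => (hJ i).symm) ho' w (Submodule.subset_span ⟨i, hi, rfl⟩))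

theorem comm_one (horb : OrbStmt) {J J' : Finset (Fin R.r)} (hJ : ∀ i, i ∈ J ∨ i ∈ J')
    (hd : Disjoint J J')
    (ho : ∀ i ∈ J', ∀ k ∈ J, inner ℝ (R.a i) (R.a k) = (0 : ℝ)) {b c : R.E} (hb : b ∈ R.lev J)
    (hc : c ∈ R.lev J') {x y : G} (hx : x ∈ R.X b) (hy : y ∈ R.X c) : x * y = y * x := by
  have h1 : x * y * x⁻¹ * y⁻¹ ∈ R.gp ∅ := by
    refine R.comm_gp hb.1 hc.1 ?_ ?_ hx hy
    · intro s hs h
      apply R.ne0 c hc.1
      refine sp_disj R hd ?_ hc.2
      rw [h]
      exact (sp R J).neg_mem ((sp R J).smul_mem _ hb.2)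
    · intro p q hp hq h
      exfalso
      rcases lev_or R horb hJ ho h with h2 | h2
      · have h3 : q • c ∈ sp R J := by
          have := (sp R J).sub_mem h2.2 ((sp R J).smul_mem p hb.2)
          rwa [add_sub_cancel_left] at this
        have h4 : c ∈ sp R J := by
          have := (sp R J).smul_mem q⁻¹ h3
          rwa [smul_smul, inv_mul_cancel₀ (by linarith), one_smul] at this
        exact R.ne0 c hc.1 (sp_disj R hd h4 hc.2)
      · have h3 : p • b ∈ sp R J' := by
          have := (sp R J').sub_mem h2.2 ((sp R J').smul_mem q hc.2)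
          rwa [add_sub_cancel_right] at this
        have h4 : b ∈ sp R J' := by
          have := (sp R J').smul_mem p⁻¹ h3
          rwa [smul_smul, inv_mul_cancel₀ (by linarith), one_smul] at this
        exact R.ne0 b hb.1 (sp_disj R hd hb.2 h4)
  rw [R.gp_empty, Subgroup.mem_bot] at h1
  have h2 : x * y = y * x := by
    have h3 : x * y * x⁻¹ * y⁻¹ = 1 := h1
    calc x * y = (x * y * x⁻¹ * y⁻¹) * (y * x) := by group
      _ = y * x := by rw [h3, one_mul]
  exact h2

theorem gp_comm (horb : OrbStmt) {J J' : Finset (Fin R.r)} (hJ : ∀ i, i ∈ J ∨ i ∈ J')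
    (hd : Disjoint J J')
    (ho : ∀ i ∈ J', ∀ k ∈ J, inner ℝ (R.a i) (R.a k) = (0 : ℝ)) {x y : G}
    (hx : x ∈ R.gp (R.lev J)) (hy : y ∈ R.gp (R.lev J')) : x * y = y * x := by
  have h1 : R.gp (R.lev J) ≤ Subgroup.centralizer ((R.gp (R.lev J') : Subgroup G) : Set G) := by
    apply R.gp_le
    intro b hb x hx
    rw [Subgroup.mem_centralizer_iff]
    intro y hy
    have h2 : R.gp (R.lev J') ≤ Subgroup.centralizer ({x} : Set G) := by
      apply R.gp_le
      intro c hc y hy
      rw [Subgroup.mem_centralizer_iff]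
      intro z hz
      rw [Set.mem_singleton_iff.mp hz]
      exact comm_one R horb hJ hd ho hb hc hx hy
    have h3 := h2 hy
    rw [Subgroup.mem_centralizer_iff] at h3
    exact (h3 x rfl).symm
  have h2 := h1 hx
  rw [Subgroup.mem_centralizer_iff] at h2
  exact (h2 y hy).symm

theorem gp_normal (horb : OrbStmt) {J J' : Finset (Fin R.r)} (hJ : ∀ i, i ∈ J ∨ i ∈ J')
    (hd : Disjoint J J')
    (ho : ∀ i ∈ J', ∀ k ∈ J, inner ℝ (R.a i) (R.a k) = (0 : ℝ)) :
    (R.gp (R.lev J)).Normal := by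
  have h1 : (⊤ : Subgroup G) ≤ Subgroup.normalizer ((R.gp (R.lev J) : Subgroup G) : Set G) := by
    rw [← R.gen]
    refine sup_le ?_ (iSup₂_le ?_)
    · intro t ht
      rw [Subgroup.mem_normalizer_iff]
      intro x
      constructor
      · exact fun hx => R.T_gp (R.lev_sub J) ht hx
      · intro hx
        have := R.T_gp (R.lev_sub J) (R.T.inv_mem ht) hx
        have h1 : t⁻¹ * (t * x * t⁻¹) * t⁻¹⁻¹ = x := by group
        rwa [h1] at this
    · intro b hb
      rcases lev_or R horb hJ ho hb with h2 | h2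
      · exact (R.X_le_gp h2).trans Subgroup.le_normalizer
      · intro y hy
        have hy' : y ∈ R.gp (R.lev J') := R.X_le_gp h2 hy
        rw [Subgroup.mem_normalizer_iff]
        intro x
        constructor
        · intro hx
          have h3 := gp_comm R horb hJ hd ho hx hy'
          have h4 : y * x * y⁻¹ = x := by rw [← h3]; group
          rwa [h4]
        · intro hx
          have h3 := gp_comm R horb hJ hd ho hx hy'
          have h4 : y * x * y⁻¹ = x := by
            have h5 : y * x = y * (y * x * y⁻¹) := by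
              rw [← h3]
              group
            have h6 := mul_left_cancel h5
            exact h6.symm
          rwa [h4] at hx
  refine ⟨fun x hx g => ?_⟩
  have h2 := h1 (Subgroup.mem_top g)
  rw [Subgroup.mem_normalizer_iff] at h2
  exact (h2 x).mp hx

end

theorem con (horb : OrbStmt) : ConStmt := by
  intro ℓ _ D _ _ M R h J hJ hJu
  by_contra hc
  push Not at hc
  have ho : ∀ i ∈ J, ∀ k ∈ Jᶜ, inner ℝ (R.a i) (R.a k) = (0 : ℝ) := by
    intro i hi k hk
    exact orth_of_fix R (hc i hi k (Finset.mem_compl.mp hk))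
  have ho' : ∀ i ∈ Jᶜ, ∀ k ∈ J, inner ℝ (R.a i) (R.a k) = (0 : ℝ) := by
    intro i hi k hk
    rw [real_inner_comm]
    exact ho k hk i hi
  have hJ1 : ∀ i, i ∈ J ∨ i ∈ Jᶜ := fun i => by
    rw [Finset.mem_compl]
    exact em _
  have hd : Disjoint J Jᶜ := disjoint_compl_right
  have hfin : Finite M := inferInstance
  -- a normal subgroup containing a simple root group is everything modulo the centre
  have key : ∀ (A : Subgroup M), A.Normal → (∃ i, R.X (R.a i) ≤ A) →
      ∀ x : M, ∃ y ∈ A, ∃ z ∈ Subgroup.center D, (x : D) = y * z := by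
    rintro A hA ⟨i, hi⟩
    rcases h.simp A hA with h1 | h1
    · exfalso
      apply R.nt i
      rw [Subgroup.eq_bot_iff_forall]
      intro x hx
      have h2 : x ∈ R.T := h.zT x (h1 x (hi hx))
      obtain ⟨n, hn⟩ := R.pgrp _ (R.mem i) ⟨x, hx⟩
      have h3 : x ^ ℓ ^ n = 1 := by
        have := congrArg Subtype.val hn
        exact this
      have h4 : orderOf x ∣ ℓ ^ n := orderOf_dvd_of_pow_eq_one h3
      have h5 : orderOf x ∣ Nat.card R.T := by
        have := orderOf_dvd_natCard (⟨x, h2⟩ : R.T)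
        rwa [Subgroup.orderOf_mk] at this
      have h6 : Nat.Coprime (ℓ ^ n) (Nat.card R.T) := by
        apply Nat.Coprime.pow_left
        exact ((Fact.out : ℓ.Prime).coprime_iff_not_dvd).mpr R.cop
      have h7 : orderOf x = 1 := Nat.eq_one_of_dvd_coprimes h6 h4 h5
      exact orderOf_eq_one_iff.mp h7
    · exact h1
  obtain ⟨i, hi⟩ := hJ
  obtain ⟨k, hk⟩ : ∃ k, k ∉ J := by
    by_contra h1
    push Not at h1
    exact hJu (Finset.eq_univ_iff_forall.mpr h1)
  have hk' : k ∈ Jᶜ := Finset.mem_compl.mpr hk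
  have n1 := gp_normal R horb hJ1 hd ho'
  have n2 := gp_normal R horb (fun i => (hJ1 i).symm) hd.symm ho
  have e1 := key _ n1 ⟨i, R.X_le_gp ⟨R.mem i, Submodule.subset_span ⟨i, hi, rfl⟩⟩⟩
  have e2 := key _ n2 ⟨k, R.X_le_gp ⟨R.mem k, Submodule.subset_span ⟨k, hk', rfl⟩⟩⟩
  obtain ⟨x, x', hne⟩ := h.nonab
  apply hne
  obtain ⟨y, hy, z, hz, hx⟩ := e1 x
  obtain ⟨y', hy', z', hz', hx'⟩ := e2 x'
  have h1 := gp_comm R horb hJ1 hd ho' hy hy'
  have h2 : (y : D) * y' = y' * y := by
    have := congrArg Subtype.val h1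
    exact this
  rw [Subgroup.mem_center_iff] at hz hz'
  apply Subtype.ext
  show (x : D) * x' = x' * x
  rw [hx, hx']
  calc (y : D) * z * (y' * z') = y * (z * y') * z' := by group
    _ = y * (y' * z) * z' := by rw [hz y']
    _ = (y * y') * (z * z') := by group
    _ = (y' * y) * (z * z') := by rw [h2]
    _ = (y' * y) * (z' * z) := by rw [← hz z']
    _ = y' * (y * z') * z := by group
    _ = y' * (z' * y) * z := by rw [← hz' y]
    _ = y' * z' * (y * z) := by group

end Pool.Agent.PP.X1.H68
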