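import Pool.Agent.Helper36_X1.Stmts3
import Pool.Agent.Helper71_BN.Pcm

/-!
# Squad X1: PCX, the class function which separates the projective representations
-/

open scoped BigOperators

set_option linter.unusedSectionVars false

noncomputable section

namespace Pool.Agent.PP.X1.H68

open Pool.Agent.Helper51_AWC Pool.Agent.Helper79_WRA Pool.Agent.PP Pool.Agent.PP.X1
open Pool.Agent.PP.BN.H71

variable {ℓ : ℕ} {F D : Type} [Field F] [Group D] [Finite D]

theorem cj_szx {M : Subgroup D} [M.Normal] {U : Subgroup M} {A : Subgroup D}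
    (hfr : M ⊔ A = ⊤)
    (hA : ∀ x ∈ A, ∀ u : M, (MulAut.conjNormal x : MulAut M) u ∈ U ↔ u ∈ U)
    {k : ℕ} (σ : M →* Matrix (Fin k) (Fin k) F) (y : D) :
    SZ U (cj σ y) ↔ SZ U σ := by
  classical
  have : Fintype U := Fintype.ofFinite _
  obtain ⟨m, hm, z, hz, rfl⟩ : ∃ m ∈ M, ∃ z ∈ A, m * z = y := by
    have h1 : y ∈ ((M ⊔ A : Subgroup D) : Set D) := by
      rw [hfr]; trivial
    rw [Subgroup.normal_mul] at h1
    exact h1
  have hbij : Function.Bijective (fun u : U =>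
      (⟨MulAut.conjNormal z (u : M), (hA z hz _).2 u.2⟩ : U)) := by
    rw [Finite.injective_iff_bijective.symm]
    intro u v huv
    exact Subtype.ext ((MulAut.conjNormal z : M ≃* M).injective (congrArg Subtype.val huv))
  have h2 : ∑ᶠ u : U, cj σ (m * z) u =
      σ ⟨m, hm⟩ * (∑ᶠ u : U, σ u) * σ (⟨m, hm⟩ : M)⁻¹ := by
    simp only [finsum_eq_sum_of_fintype]
    rw [← Fintype.sum_bijective _ hbij (fun u => σ (MulAut.conjNormal z (u : M))) (fun u => σ u)
      fun u => rfl, Finset.mul_sum, Finset.sum_mul]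
    refine Finset.sum_congr rfl fun u _ => ?_
    rw [← map_mul, ← map_mul, cj_apply]
    congr 1
    ext
    simp only [MulAut.conjNormal_apply, Subgroup.coe_mul, Subgroup.coe_inv]
    group
  rw [SZ, SZ, h2]
  constructor
  · intro h
    have h3 : σ (⟨m, hm⟩ : M)⁻¹ * (σ ⟨m, hm⟩ * (∑ᶠ u : U, σ u) *
        σ (⟨m, hm⟩ : M)⁻¹) * σ ⟨m, hm⟩ = 0 := by rw [h]; simp
    have h4 : σ (⟨m, hm⟩ : M)⁻¹ * (σ ⟨m, hm⟩ * (∑ᶠ u : U, σ u) *
        σ (⟨m, hm⟩ : M)⁻¹) * σ ⟨m, hm⟩ = (σ (⟨m, hm⟩ : M)⁻¹ * σ ⟨m, hm⟩) *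
          (∑ᶠ u : U, σ u) * (σ (⟨m, hm⟩ : M)⁻¹ * σ ⟨m, hm⟩) := by
      simp only [Matrix.mul_assoc]
    rw [h4, ← map_mul, inv_mul_cancel, map_one, Matrix.one_mul, Matrix.mul_one] at h3
    exact h3
  · intro h
    rw [h]; simp

theorem pcx (frx : FrxStmt) (bas : BasStmt) (ibj : IbjStmt) (ibf : IbfStmt) (ibc : IbcStmt) :
    PcxStmt := by
  intro ℓ _ F _ hF D _ _ M R h
  classical
  have : Fintype D := Fintype.ofFinite D
  have : Fintype M := Fintype.ofFinite M
  have : Fintype (D ⧸ M) := Fintype.ofFinite _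
  have : M.Normal := h.normal
  have := hF.char
  obtain ⟨-, -, hfrat, hconj, -, -, -, hind, -⟩ := bas ℓ D M R h
  have hU : (R.U.index : F) ≠ 0 := by
    rw [Ne, CharP.cast_eq_zero_iff F ℓ]
    intro h1
    apply hind
    have h2 : (up R.U).index = (R.U ⊔ M.subtype.ker).index * M.subtype.range.index :=
      Subgroup.index_map _ _
    rw [Subgroup.ker_subtype, sup_bot_eq] at h2
    rw [h2]
    exact Dvd.dvd.mul_right h1 _
  have hM : (M.index : F) ≠ 0 := by
    rw [Ne, CharP.cast_eq_zero_iff F ℓ]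
    exact h.index
  obtain ⟨b, hb⟩ := avg (G := M) hF ibj ibf ibc R.U hU
    (fun k ρ hρ hz => frx ℓ F hF M R k ρ hρ hz)
  obtain ⟨b', hb'1, hb'0⟩ : ∃ b' : D → F, (∀ x : M, b' x = b x) ∧ ∀ x, x ∉ M → b' x = 0 :=
    ⟨fun x => if hx : x ∈ M then b ⟨x, hx⟩ else 0, fun x => by simp, fun x hx => by simp [hx]⟩
  refine ⟨fun x => (M.index : F)⁻¹ * ∑ g : D, b' (g⁻¹ * x * g), ?_, ?_, ?_, ?_⟩
  · intro x y
    simp only
    congr 1
    rw [← Equiv.sum_comp (Equiv.mulLeft y)]
    refine Finset.sum_congr rfl fun g _ => ?_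
    congr 1
    simp only [Equiv.coe_mulLeft]
    group
  · intro x hx
    simp only
    rw [Finset.sum_eq_zero, mul_zero]
    intro g _
    refine hb'0 _ fun h1 => hx ?_
    have h2 := h.normal.conj_mem _ h1 g
    have h3 : g * (g⁻¹ * x * g) * g⁻¹ = x := by group
    rwa [h3] at h2
  · intro x hx hdvd
    apply hx
    simp only
    rw [sum_inv (ℓ := ℓ) (Subgroup.centralizer ({x} : Set D)) hdvd, mul_zero]
    intro c hc g
    congr 1
    have h1 : x * c = c * x := Subgroup.mem_centralizer_iff.1 hc x rfl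
    calc (c * g)⁻¹ * x * (c * g) = g⁻¹ * (c⁻¹ * (x * c)) * g := by group
      _ = g⁻¹ * x * g := by rw [h1]; group
  · intro k σ hσ
    have key : ev σ (fun t : M => (M.index : F)⁻¹ * ∑ g : D, b' (g⁻¹ * (t : D) * g)) =
        (M.index : F)⁻¹ • ∑ q : D ⧸ M, ∑ m : M,
          cj σ q.out m * ev (cj σ q.out) b * cj σ q.out m⁻¹ := by
      have e1 : ev σ (fun t : M => (M.index : F)⁻¹ * ∑ g : D, b' (g⁻¹ * (t : D) * g)) =
          (M.index : F)⁻¹ • ∑ g : D, ev (cj σ g) b := by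
        simp only [ev, finsum_eq_sum_of_fintype]
        have e2 : ∀ t : M, ((M.index : F)⁻¹ * ∑ g : D, b' (g⁻¹ * (t : D) * g)) • σ t =
            (M.index : F)⁻¹ • ∑ g : D, b' (g⁻¹ * (t : D) * g) • σ t := fun t => by
          rw [mul_smul, Finset.sum_smul]
        rw [Finset.sum_congr rfl fun t _ => e2 t, ← Finset.smul_sum, Finset.sum_comm]
        congr 1
        refine Finset.sum_congr rfl fun g _ => ?_
        rw [← Equiv.sum_comp (MulAut.conjNormal g : M ≃* M).toEquiv]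
        refine Finset.sum_congr rfl fun s _ => ?_
        change b' (g⁻¹ * ((MulAut.conjNormal g s : M) : D) * g) • σ (MulAut.conjNormal g s) =
          b s • cj σ g s
        rw [MulAut.conjNormal_apply, cj_apply, ← hb'1]
        congr 2
        group
      rw [e1, sum_quot M]
      congr 1
      refine Finset.sum_congr rfl fun q _ => Finset.sum_congr rfl fun m _ => ?_
      simp only [ev, finsum_eq_sum_of_fintype]
      rw [Finset.mul_sum, Finset.sum_mul]
      refine Finset.sum_congr rfl fun s _ => ?_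
      rw [cj_mul, Matrix.mul_smul, Matrix.smul_mul]
    rw [key]
    constructor
    · intro hz
      rw [Finset.sum_eq_zero, smul_zero]
      intro q _
      exact (hb k (cj σ q.out) (cj_irr hσ _)).1 ((cj_szx hfrat hconj σ _).2 hz)
    · intro hz
      have h1 : ∀ q : D ⧸ M, ∑ m : M, cj σ q.out m * ev (cj σ q.out) b * cj σ q.out m⁻¹ = 1 :=
        fun q => (hb k (cj σ q.out) (cj_irr hσ _)).2 fun h2 => hz ((cj_szx hfrat hconj σ _).1 h2)
      rw [Finset.sum_congr rfl fun q _ => h1 q, Finset.sum_const, Finset.card_univ,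
        ← Nat.card_eq_fintype_card, ← Subgroup.index_eq_card, ← Nat.cast_smul_eq_nsmul F,
        smul_smul, inv_mul_cancel₀ hM, one_smul]

end Pool.Agent.PP.X1.H68
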